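import Mathlib
import Pool.Agent.H77.MV.EdgeBoundProof

/-!
# Edge count versus maximum forcing number

Every graph `G` on `2n` vertices with a perfect matching satisfies
`e(G) ≥ n² / (n - F(G))`, where `F(G)` is the maximum forcing number.
-/

namespace Pool.Agent.Results.MP_f5b231_co.EdgeBound

open Finset

universe u

variable {V : Type u}

/-- **Theorem.** Every (finite simple) graph `G` on `2n` vertices, `n ≥ 1`, that has a perfect
matching satisfies `F(G) < n` and `e(G) ≥ n² / (n - F(G))`. -/
theorem result {V : Type u} [Fintype V] (G : SimpleGraph V) (n : ℕ) (hn : 1 ≤ n)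
    (hV : Fintype.card V = 2 * n) (hG : ∃ M : G.Subgraph, M.IsPerfectMatching) :
    maxForcingNumber G < n ∧
      (n : ℝ) ^ 2 / ((n : ℝ) - maxForcingNumber G) ≤ (G.edgeSet.ncard : ℝ) :=
  result_proof G n hn hV hG

end Pool.Agent.Results.MP_f5b231_co.EdgeBound
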